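import Pool.Agent.H4.S2Q.Fin

/-!
# Mod `p` modularity as posed fails for `SL_2^m`, with all components of `r` irreducible

Here `p = 229`, `S` is empty, `m` is any positive multiple of `229` and `G = SL_2^m`. The Galois
representation is `r = (ρ,…,ρ)`, where `ρ` is the action of the Galois group on the roots of
`X³ - 4X - 1` (discriminant `229`), followed by the two-dimensional irreducible representation of
`S_3`. The roots are real, `ρ` is unramified outside `229`, and on inertia at `229` it is
`diag(ω^114, 1)`. Since `229` divides `m`, the representation `r` is odd in the sense of the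
question (the trace of `Ad(r(c))` is an element of `k`), while `-1` in one factor is a central
element acting by `-1` on the coefficients.
-/

namespace Pool.Agent.Results.MP_f2eb9c_nt.SL2PowerNoEigenclass

open Pool.Agent.H4.S2Q

/-- For `p = 229`, `G = SL_2^m` with `229 ∣ m`, `m > 0`, the weight `x = (a,0)` in every factor
with `a ≡ 114` modulo `228` (so `x - ρ = (a-1,0)`), every field `k` of characteristic `229` and
`S = ∅`: some `r = (r_i)` with absolutely irreducible components satisfies all the hypotheses; there
are irreducible representations `V` of highest weight `x - ρ` and stable lattices `M` in them; and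
all the cohomology groups `Hⁿ(SL_2(ℤ)^m, k ⊗ M)` vanish, for every such `V` and `M`. -/
theorem result (m a : ℕ) (hm : 0 < m) (hm' : 229 ∣ m) (ha : a % 228 = 114)
    (k : Type) [Field k] [CharP k 229] {G H V M W : Type} [Group G] [Group H]
    [AddCommGroup V] [Module ℚ V] [AddCommGroup M] [AddCommGroup W] [Module k W]
    (f : G → Fin m → Matrix (Fin 2) (Fin 2) ℤ) (h : H → Fin m → Matrix (Fin 2) (Fin 2) ℚ)
    (hf : IsSL f) (hh : IsSL h) :
    (∃ r : Fin m → Gal(AlgebraicClosure ℚ/ℚ) → Matrix.ProjGenLinGroup (Fin 2) k, IsOdd r ∧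
      ∀ i, IsHom (r i) ∧ NearlyOrdinary 229 (wt a) (r i) ∧ NoStableLine (r i) ∧
        ∀ l, Nat.Prime l → l ≠ 229 → UnramifiedAt l (r i)) ∧
    (∃ (n : ℕ) (ρ : Representation ℚ H (Fin n → ℚ)) (μ : Representation ℤ G (Fin n → ℤ)),
      IsIrrep h (wt (a - 1)) ρ ∧ IsLatticeIn f h μ ρ) ∧
    ∀ (ρ : Representation ℚ H V) (μ : Representation ℤ G M) (τ : Representation k G W),
      IsIrrep h (wt (a - 1)) ρ → IsLatticeIn f h μ ρ → IsReduction μ τ → Acyclic τ :=
  main m a hm hm' ha k f h hf hh

end Pool.Agent.Results.MP_f2eb9c_nt.SL2PowerNoEigenclass
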