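import Pool.Agent.H95.SLT.Conv

/-!
# Mod `p` modularity fails for `SL_3`, for every prime `p ≥ 5`

The weight is `x = (5,2,0)` (so `x - ρ = (4,2,1)`, the same character of the torus of `SL_3` as
`(3,1,0)`), the set `S` of bad primes is empty, and the Galois representation is
`r = x^∨ ∘ ω : σ ↦ diag(ω(σ)^5, ω(σ)^2, 1)`. The definitions are in `Pool.Agent.H95.SLT.Defs`.
-/

open Matrix

namespace Pool.Agent.Results.MP_f2eb9c_nt.SL3NoEigenclass

open Pool.SLT

/-- For `G = SL_3`, the strongly regular weight `x = (5,2,0)`, every prime `p ≥ 5`, every field `k`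
of characteristic `p` and `S = ∅`, some `r` satisfies all the hypotheses, while all the cohomology
groups `Hⁿ(SL_3(ℤ), k ⊗ M)` vanish, for every stable lattice `M`, in coordinates `M = ℤ^m`. -/
theorem result (p : ℕ) (hp : p.Prime) (hp5 : 5 ≤ p) (k : Type) [Field k] [CharP k p] :
    ∃ x rho lam : Fin 3 → ℤ, x = ![5, 2, 0] ∧ rho = ![1, 0, -1] ∧ (∀ i, lam i = x i - rho i) ∧
      StronglyRegular x ∧
      -- a Galois representation satisfying all the hypotheses, with `S = ∅`
      GaloisRep p x k ∧
      -- irreducible representations of highest weight `x - ρ`, and stable lattices in them, exist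
      (∃ (m : ℕ) (R : Matrix (Fin 3) (Fin 3) ℚ → Matrix (Fin m) (Fin m) ℚ)
        (A : SpecialLinearGroup (Fin 3) ℤ → Matrix (Fin m) (Fin m) ℤ),
        IsIrrep R lam ∧ IsIntegral R A) ∧
      -- the cohomology vanishes in all degrees, for every stable lattice
      ∀ (m : ℕ) (R : Matrix (Fin 3) (Fin 3) ℚ → Matrix (Fin m) (Fin m) ℚ)
        (A : SpecialLinearGroup (Fin 3) ℤ → Matrix (Fin m) (Fin m) ℤ),
        IsIrrep R lam → IsIntegral R A →
        ∀ (W : Type) [AddCommGroup W] [Module k W], Acyclic A k W :=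
  main p hp hp5 k

end Pool.Agent.Results.MP_f2eb9c_nt.SL3NoEigenclass
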